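import Pool.Agent.H891.BL.FlagC

/-!
# Kodaira dimension, numerical dimension and members of covering families: the Brascamp-Lieb
# inequality

MP_fa3f7f_ag, Q1. Let `V` be a projective variety of dimension `n` with function field `K`, and let
`F j` (`j < r`) be the general members of covering families of subvarieties of `V`, of dimension
`f j`, and `T j` their tangent spaces at the general point of `V`. Let `p j = c j / d` be
non-negative rational weights. Suppose that

`n - dim U ≤ ∑ p j (f j - dim (U ∩ T j))` for all distributions `U ⊆ T_V` on `V`

(this is the condition of Bennett, Carbery, Christ and Tao for the Brascamp-Lieb inequalities, but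
only for the subspaces `U` of the tangent space at the general point which are rational over `K`).
Then

* `κ(V) ≤ ∑ p j κ(F j)` and `ν(V) ≤ ∑ p j ν(F j)`, also for pairs `(V, Δ)`;
* there is an integer `e ≥ 1` (a multiple of `d`, which depends only on the tangent spaces and on the
  weights) with `h⁰(V, L) ≤ ∏ h⁰(F j, e L) ^ (p j)` for all `L = m (K_V + Δ) + b A`, in particular
  for the plurigenera: `P_m(V) ≤ ∏ P_{em}(F j) ^ (p j)`.

So if `κ(V) ≥ ∑ p j ν(F j)` then `κ(V) = ν(V)`; the varieties with this property have good minimal
models, outcome (a). The members may have small dimension (at most three, where abundance is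
known), so that their numerical dimensions are computable.

Example (one family): suppose that the members `F` of one covering family of subvarieties of
dimension `f` are in a semistable position: `dim (U ∩ T_F) / f ≤ dim U / n` for all distributions
`U` on `V`. Then `κ(V) / n ≤ κ(F) / f` and `ν(V) / n ≤ ν(F) / f` (with `r = 1`, `c = n`, `d = f`).
This is a condition on the foliations and distributions of `V` only; the different members of the
family through the general point are exchanged by the monodromy.

The condition is satisfied (with `c j = 1`, `d = q`) for the positions of the `T j` with respect to a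
flag which are considered in `CoveringFamilies`, where the inequality `P_m(V) ^ q ≤ ∏ P_m(F j)` is
proved; this is part (B) of the theorem.

A covering family of subvarieties of dimension `f`, with the parameter space `T` cut down to
dimension `n - f`, is given by the algebraic closure `B` of the function field of `T` in the algebraic
closure of `K` (the function field of the total space of the family is a finite extension of `K`
which contains the one of `T`); `B` is any algebraically closed field with `ℂ ⊆ B` of transcendence
degree `n - f` (`IsFamily`). `MemField B` is the field generated by `B` and `K`: the function field of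
the geometric generic member. `Tan B`: the derivations of the algebraic closure of `K` which vanish on
`B`, i.e. the tangent space of the member at the general (geometric generic) point of `V`.
`IsDistribution U`: `U` is generated by derivations which map `K` into itself (rational vector fields
on `V`). `BLDist n B f c d`: the condition above.
`HasIndep k K n N P`: there are `N` linearly independent `ω` with `P`. `PairSec k K n δ S m b ω`:
`ω` is a rational `m`-canonical form which is a section of `m (K_V + Δ) + b A`, `Δ` the divisor with
the multiplicities `δ v` at the prime divisors `v` over `V`, and `A` the divisor generated by the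
functions in `S` (for `δ = 0`, `S = {1}` these are the regular `m`-canonical forms).
`IsRestrMem B δ δ'`: `δ'` is the restriction of `δ` (`δ' = 0` for `δ = 0`). `MemIndep`, `MemKod`,
`MemNum`: number of independent sections, `κ ≤ a` and `ν ≤ a` for the general member.
`PairKod k K n δ h`: `κ(K_V + Δ) ≥ h`. `PairNum k K n δ h`: `ν(K_V + Δ) ≤ h`, that is
`h⁰(m (K_V + Δ) + A) ≤ C m ^ h` for all `A`.

The proof. Let `Ω` be the algebraic closure of `K` and `W ⊂ K` the space of the coefficients of the
sections. The leading forms of the `Ω`-linear combinations of the Taylor series of the elements of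
`W` at the geometric generic point span a graded space `G` of polynomials on the tangent space `T`,
of dimension `dim W`, which is closed under derivatives, hence under translations; the restriction of
`G` to `T j` has at most the dimension of `B j W` over `B j` (a relation over the ring generated by
`Ω` and the Taylor series of the elements of `B j` yields one for the leading forms), and products of
elements of `G` are leading forms for products of elements of `W`. If `X j` are matrices over `Ω`,
with `e` rows and `e p j` columns, such that the map `⨁ T j ⊗ Ω ^ (e p j) → T ⊗ Ω ^ e` given by them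
is surjective, then the elements of `G ^ (⊗ e)`, as functions on `⨁ T j ⊗ Ω ^ (e p j)`, are
determined by the values on a finite grid, and are in each variable in the restriction of the
`e`-fold products of `G`; this gives the inequality. The existence of such matrices follows from the
condition for all subspaces `U` of `T` by induction on the dimension and on the number of the
positive weights: if there is a critical subspace one uses generic combinations, otherwise `p` is
moved to the boundary in two opposite directions. Finally the set of the extremal subspaces is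
closed under sums, hence the largest one is stable under the Galois group if all conjugates of the
families are used with the same weights, and it descends to `K`.
-/

set_option autoImplicit false

open FF Pool.Agent.W619.TW Pool.Agent.Y174 Pool.Agent.H891.TY Pool.Agent.H891.BL

namespace Pool.Agent.Results.MP_fa3f7f_ag.BrascampLieb

/-- **The Brascamp-Lieb inequality.** Let `V` be a projective variety of dimension `n` with function
field `K`, and let `B j` (`j < r`) define covering families of subvarieties of `V` of dimensions
`f j`, with the general members `F j`.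

(A) Let `c j / d` be weights which satisfy the Brascamp-Lieb condition for all distributions `U` on
`V` (`BLDist`). Then:

(1) There is a `D ≥ 1` such that for all divisors `Δ`, with restrictions to `F j` given by `δ' j`, and
for all `A`, `m`, `b`, with `L = m (K_V + Δ) + b A`,

`h⁰(V, L) ^ (d D) ≤ ∏ h⁰(F j, d D L) ^ (c j D)`.

(2) If `κ(F j, K + Δ) ≤ a j` for all `j`, and `κ(K_V + Δ) ≥ h`, then `d h ≤ ∑ c j a j`.

(3) If `ν(F j, K + Δ) ≤ ν j` for all `j` then `h⁰(m (K_V + Δ) + A) ^ d ≤ C m ^ (∑ c j ν j)` for all
`A`; so `ν(K_V + Δ) ≤ h` if `∑ c j ν j ≤ d h`.

(B) If there is a flag in the tangent space of `V` at the general point such that each step is covered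
by at least `q` of the tangent spaces of the `F j` (`FlagCover`), then the condition of (A) is
satisfied with the weights `1 / q`. -/
theorem result {K : Type} [Field K] [Algebra ℂ K] [Algebra.EssFiniteType ℂ K] {n : ℕ}
    (hn : Algebra.trdeg ℂ K = n) {r : ℕ} (B : Fin r → IntermediateField ℂ (AlgebraicClosure K))
    (f : Fin r → ℕ) (hB : ∀ j, IsFamily (B j) n (f j)) :
    (∀ (c : Fin r → ℕ) (d : ℕ), 1 ≤ d → BLDist n B f c d →
      (∃ D : ℕ, 0 < D ∧ ∀ (δ : Place ℂ K → ℝ) (δ' : ∀ j, MemDiv (B j)),
        (∀ j, IsRestrMem (B j) δ (δ' j)) → ∀ (S : Finset K) (m b N : ℕ) (M : Fin r → ℕ),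
        HasIndep ℂ K n N (PairSec ℂ K n δ S m b) →
        (∀ j N', MemIndep (B j) (f j) (δ' j) S (d * D * m) (d * D * b) N' → N' ≤ M j) →
        N ^ (d * D) ≤ ∏ j, M j ^ (c j * D)) ∧
      ∀ (δ : Place ℂ K → ℝ) (δ' : ∀ j, MemDiv (B j)), (∀ j, IsRestrMem (B j) δ (δ' j)) →
        (∀ a : Fin r → ℕ, (∀ j, MemKod (B j) (f j) (δ' j) (a j)) →
          ∀ h, PairKod ℂ K n δ h → d * h ≤ ∑ j, c j * a j) ∧
        ∀ ν : Fin r → ℕ, (∀ j, MemNum (B j) (f j) (δ' j) (ν j)) →
          (∀ S : Finset K, ∃ C : ℕ, ∀ m N : ℕ, 1 ≤ m → HasIndep ℂ K n N (PairSec ℂ K n δ S m 1) →
            N ^ d ≤ C * m ^ (∑ j, c j * ν j)) ∧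
          ∀ h, ∑ j, c j * ν j ≤ d * h → PairNum ℂ K n δ h) ∧
    ∀ q : ℕ, FlagCover n q B → BLDist n B f (fun _ => 1) q := by
  classical
  refine ⟨fun c d hd hBL => ?_, fun q hq => flag_bldist hn hB hq⟩
  obtain ⟨D, hD, h1⟩ := bl_dist inferInstance hn hd hB hBL
  refine ⟨⟨D, hD, h1⟩, fun δ δ' hδ => ?_⟩
  have h3 : ∀ ν : Fin r → ℕ, (∀ j, MemNum (B j) (f j) (δ' j) (ν j)) →
      ∀ S : Finset K, ∃ C : ℕ, ∀ m N : ℕ, 1 ≤ m → HasIndep ℂ K n N (PairSec ℂ K n δ S m 1) →
        N ^ d ≤ C * m ^ (∑ j, c j * ν j) := by
    intro ν hν S
    choose C hC using fun j => mem_num (hν j) S (Nat.mul_pos hd hD)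
    refine ⟨∏ j, C j ^ c j, fun m N hm hN => ?_⟩
    have h4 := h1 δ δ' hδ S m 1 N (fun j => C j * m ^ ν j) hN fun j N' hN' => hC j m N' hm hN'
    have h5 : ∏ j, (C j * m ^ ν j) ^ (c j * D) =
        ((∏ j, C j ^ c j) * m ^ (∑ j, c j * ν j)) ^ D := by
      rw [← Finset.prod_pow_eq_pow_sum, ← Finset.prod_mul_distrib, ← Finset.prod_pow]
      refine Finset.prod_congr rfl fun j _ => ?_
      rw [mul_pow, mul_pow, ← pow_mul, ← pow_mul, ← pow_mul]
      congr 2
      ring
    rw [h5, pow_mul] at h4
    exact (Nat.pow_le_pow_iff_left hD.ne').1 h4
  refine ⟨fun a ha h hk => ?_, fun ν hν => ⟨h3 ν hν, fun h hh S => ?_⟩⟩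
  · choose C hC using ha
    obtain ⟨m, hm, hg⟩ := Pool.Agent.H891.KS.kod_growth hk
    have h4 : h * (d * D) ≤ ∑ j, a j * (c j * D) := by
      refine Pool.Agent.H891.KS.exp_le (C := ∏ j, C j ^ (c j * D)) (m := d * D * m) fun i hi => ?_
      have h5 := h1 δ δ' hδ {1} (i * m) 0 (i ^ h) (fun j => C j * (i * (d * D * m)) ^ a j) (hg i)
        fun j N' hN' => hC j _ N' (Nat.mul_pos hi (Nat.mul_pos (Nat.mul_pos hd hD) hm)) (by
          rwa [mul_zero, mul_left_comm] at hN')
      rw [← pow_mul] at h5
      refine h5.trans (le_of_eq ?_)
      rw [← Finset.prod_pow_eq_pow_sum, ← Finset.prod_mul_distrib]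
      refine Finset.prod_congr rfl fun j _ => ?_
      rw [mul_pow, ← pow_mul]
    have h6 : ∑ j, a j * (c j * D) = (∑ j, c j * a j) * D := by
      rw [Finset.sum_mul]
      exact Finset.sum_congr rfl fun j _ => by ring
    rw [h6, ← mul_assoc, mul_comm h d] at h4
    exact Nat.le_of_mul_le_mul_right h4 hD
  · obtain ⟨C, hC⟩ := h3 ν hν S
    exact ⟨C + 1, fun m N hm hN => Pool.Agent.H891.KS.pow_bound hm hd hh (hC m N hm hN)⟩

end Pool.Agent.Results.MP_fa3f7f_ag.BrascampLieb
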