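import Pool.Agent.H891.RF.Eq

/-!
# Varieties with a plurigenus of maximal size

MP_fa3f7f_ag, Q1. Let `V` be a projective variety of dimension `n` with function field `K`, and
consider two covering families of subvarieties of `V`, of dimensions `f₁ + f₂ = n`, such that the
general members `F₁`, `F₂` through the general point meet transversally there.

One has `P_m(V) ≤ P_m(F₁) P_m(F₂)` (a special case of `CoveringFamilies`). Here the case of equality
is described. Suppose that `P_m(V) = P_m(F₁) P_m(F₂) > 0` for one single `m`. Then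

* all `m`-canonical forms of `V` are the `a c w (dy₁ ∧ ... ∧ dy_n) ^ m` with `a ∈ A₁`, `c ∈ A₂`, and
  their sums; here `w` is fixed, and `A_i` is a space of rational functions on `V` which are constant
  on the members of the family `i`;
* the image of the `m`-canonical map of `V` has dimension at least `a₁ + a₂`, `a₁` and `a₂` the
  dimensions of the images of the `m`-canonical maps of `F₁` and `F₂`;
* if the `m`-canonical map of `F₁` is birational then the members of the second family are (components
  of) the fibres of a rational map; if they are birational for `F₁` and `F₂` then `V` is birational to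
  the product of the two bases;
* abundance: if `a₁ = ν(F₁)` and `a₂ = ν(F₂)` then `κ(V) = ν(V) = ν(F₁) + ν(F₂)`; the varieties with
  this property have good minimal models, outcome (a).

So abundance for the members and the equality of one plurigenus imply abundance for `V`; e.g.
`P_m(V) = P_m(F₁) P_m(F₂)` for one sufficiently divisible `m` implies `κ(V) = ν(V)` if the members
have dimension at most three. All is shown for the divisors `m (K_V + Δ) + b A`.

A covering family of subvarieties of dimension `f`, with the parameter space `T` cut down to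
dimension `n - f`, is given by the algebraic closure `B` of the function field of `T` in the algebraic
closure of `K` (the function field of the total space of the family is a finite extension of `K`
which contains the one of `T`); `B` is any algebraically closed field with `ℂ ⊆ B` of transcendence
degree `n - f` (`IsFamily`). `MemField B` is the field generated by `B` and `K`: the function field of
the geometric generic member. `Tan B`: the derivations of the algebraic closure of `K` which vanish on
`B`, i.e. the tangent space of the member at the general (geometric generic) point of `V`.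
`IsFibration B`: all elements of `B` are algebraic over the elements of `K` which lie in `B`.
`HasIndep k K n N P`: there are `N` linearly independent `ω` with `P`. `PairSec k K n δ S m b ω`:
`ω` is a rational `m`-canonical form which is a section of `m (K_V + Δ) + b A`, `Δ` the divisor with
the multiplicities `δ v` at the prime divisors `v` over `V`, and `A` the divisor generated by the
functions in `S` (for `δ = 0`, `S = {1}` these are the regular `m`-canonical forms).
`IsRestrMem B δ δ'`: `δ'` is the restriction of `δ` (`δ' = 0` for `δ = 0`). `MemIndep`, `MemNum`: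
the number of independent sections, and `ν ≤ a`, for the general member. `ImageDim k K n δ S m b a`:
there are `a + 1` sections with algebraically independent ratios. `ImageBir k K n δ S m b`: the
ratios of finitely many sections generate the function field. `MemImageDim`, `MemImageBir`: the same
for the general member. `PairKod k K n δ h`: `κ(K_V + Δ) ≥ h`. `PairNum k K n δ h`:
`ν(K_V + Δ) ≤ h`, that is `h⁰(m (K_V + Δ) + A) ≤ C m ^ h` for all `A`.

The proof: there are valuations with residue field `ℂ` on one of the two fields `B`, and trivial on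
the other one. Both give filtrations of the space `W` of the coefficients of the sections whose
layers are bounded by the two ranks of `W` over `B₁`, `B₂`; the equality forces all layers to be as
large as possible, and the deepest ones give `A₁` and `A₂`. Everything descends to `K`, since the
ratios of elements of `W` are in `K`.
-/

set_option autoImplicit false

open FF Pool.Agent.W619.TW Pool.Agent.Y174 Pool.Agent.H891.TY Pool.Agent.H891.RG
  Pool.Agent.H891.RF

namespace Pool.Agent.Results.MP_fa3f7f_ag.ComplementaryFamilies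

/-- **Plurigenera of maximal size.** Let `V` be a projective variety of dimension `n` with function
field `K`, and let `B₁`, `B₂` define two covering families of subvarieties of `V` of dimensions
`f₁ + f₂ = n`, with the general members `F₁`, `F₂`, whose tangent spaces at the general point of `V`
intersect in zero. Let `Δ` be given by `δ` and its restrictions to `F₁`, `F₂` by `δ₁`, `δ₂`. Suppose
that, for one `m`, one `b` and one `A`,

`h⁰(V, m (K_V + Δ) + b A) ≥ N₁ N₂ > 0`, with `h⁰(F_i, m (K + Δ) + b A) ≤ N_i` for `i = 1, 2`.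

(1) Let `y j` be any transcendence basis of `K`. There are `w`, linearly independent functions `a j`
in `K ∩ B₁`, and linearly independent functions `c i` in `K ∩ B₂`, such that the sections are the
forms `w (∑ s_{ji} a_j c_i) (dy₁ ∧ ... ∧ dy_n) ^ m`.

(2) If the sections on `F₁`, `F₂` define maps with images of dimension at least `a₁`, `a₂`, then the
sections on `V` define a map with image of dimension at least `a₁ + a₂`.

(3) If the sections on `F₁` define a birational map, then the second family is given by the fibres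
of a rational map, and vice versa. If the sections on one of the `F_i` define a birational map and
this family is given by the fibres of a rational map (e.g. if both maps are birational) then
`K` is generated by `K ∩ B₁` and `K ∩ B₂` (so `V` is birational to the product of two varieties).

(4) Let `b = 0`, `S = {1}` and `m ≥ 1`. If the dimensions `a₁`, `a₂` in (2) are upper bounds for
`ν(F₁, K + Δ)`, `ν(F₂, K + Δ)`, then `κ(K_V + Δ) ≥ a₁ + a₂ ≥ ν(K_V + Δ)`. -/
theorem result {K : Type} [Field K] [Algebra ℂ K] [Algebra.EssFiniteType ℂ K] {n : ℕ}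
    (hn : Algebra.trdeg ℂ K = n) (B₁ B₂ : IntermediateField ℂ (AlgebraicClosure K)) {f₁ f₂ : ℕ}
    (hB₁ : IsFamily B₁ n f₁) (hB₂ : IsFamily B₂ n f₂) (hf : f₁ + f₂ = n)
    (hT : Tan B₁ ⊓ Tan B₂ = ⊥) (δ : Place ℂ K → ℝ) (δ₁ : MemDiv B₁) (δ₂ : MemDiv B₂)
    (hδ₁ : IsRestrMem B₁ δ δ₁) (hδ₂ : IsRestrMem B₂ δ δ₂) (S : Finset K) (m b N₁ N₂ : ℕ)
    (hN₁ : ∀ N, MemIndep B₁ f₁ δ₁ S m b N → N ≤ N₁)
    (hN₂ : ∀ N, MemIndep B₂ f₂ δ₂ S m b N → N ≤ N₂)
    (hN : HasIndep ℂ K n (N₁ * N₂) (PairSec ℂ K n δ S m b)) (hpos : 0 < N₁ * N₂) :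
    (∀ y : Fin n → K, IsTranscendenceBasis ℂ y →
      ∃ (w : K) (a : Fin N₂ → K) (c : Fin N₁ → K), w ≠ 0 ∧
      (∀ j, algebraMap K (AlgebraicClosure K) (a j) ∈ B₁) ∧
      (∀ i, algebraMap K (AlgebraicClosure K) (c i) ∈ B₂) ∧
      LinearIndependent ℂ a ∧ LinearIndependent ℂ c ∧
      ∀ ω, PairSec ℂ K n δ S m b ω ↔ ∃ s : Fin N₂ × Fin N₁ → ℂ, ω = fun D =>
        (Matrix.of fun i j => D i (y j)).det ^ m * (w * ∑ p, s p • (a p.1 * c p.2))) ∧
    (∀ a₁ a₂ : ℕ, MemImageDim B₁ f₁ δ₁ S m b a₁ → MemImageDim B₂ f₂ δ₂ S m b a₂ →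
      ImageDim ℂ K n δ S m b (a₁ + a₂)) ∧
    ((MemImageBir B₁ f₁ δ₁ S m b → IsFibration B₂) ∧
      (MemImageBir B₂ f₂ δ₂ S m b → IsFibration B₁) ∧
      ((MemImageBir B₁ f₁ δ₁ S m b ∧ IsFibration B₁) ∨
        (MemImageBir B₂ f₂ δ₂ S m b ∧ IsFibration B₂) →
        IntermediateField.adjoin ℂ {z : K | algebraMap K (AlgebraicClosure K) z ∈ B₁ ∨
          algebraMap K (AlgebraicClosure K) z ∈ B₂} = ⊤)) ∧
    (S = {1} → b = 0 → 1 ≤ m → ∀ a₁ a₂ : ℕ, MemImageDim B₁ f₁ δ₁ S m b a₁ →
      MemImageDim B₂ f₂ δ₂ S m b a₂ → MemNum B₁ f₁ δ₁ a₁ → MemNum B₂ f₂ δ₂ a₂ →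
      PairKod ℂ K n δ (a₁ + a₂) ∧ PairNum ℂ K n δ (a₁ + a₂)) := by
  classical
  obtain ⟨y₀, hy₀⟩ := Pool.Agent.W636.PG.exists_basis ℂ K n hn
  obtain ⟨-, h2, h3, h4, h5⟩ :=
    fam_equality inferInstance hn hy₀ hB₁ hB₂ hf hT hδ₁ hδ₂ hN₁ hN₂ hN hpos
  refine ⟨fun y hy => ?_, h2, ⟨h3, h4, h5⟩, ?_⟩
  · obtain ⟨⟨w, a, c, hw, ha, hc, hla, hlc, hsec⟩, -⟩ :=
      fam_equality inferInstance hn hy hB₁ hB₂ hf hT hδ₁ hδ₂ hN₁ hN₂ hN hpos
    refine ⟨w, a, c, hw, ha, hc, hla, hlc, fun ω => (hsec ω).trans ⟨?_, ?_⟩⟩
    · rintro ⟨s, rfl⟩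
      refine ⟨s, funext fun D => ?_⟩
      show _ * _ = _
      congr 1
      rw [Finset.mul_sum]
      refine Finset.sum_congr rfl fun p _ => ?_
      rw [mul_smul_comm, mul_comm w]
    · rintro ⟨s, rfl⟩
      refine ⟨s, funext fun D => ?_⟩
      show _ = _ * _
      congr 1
      rw [Finset.mul_sum]
      refine Finset.sum_congr rfl fun p _ => ?_
      rw [mul_smul_comm, mul_comm w]
  · rintro rfl rfl hm a₁ a₂ hd₁ hd₂ hν₁ hν₂
    refine ⟨?_, ?_⟩
    · obtain ⟨ω, hω, hD⟩ := h2 a₁ a₂ hd₁ hd₂
      exact ⟨m, hm, ω, hω, hD⟩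
    · intro S'
      obtain ⟨C₁, hC₁⟩ := hν₁ (S'.image (memHom B₁))
      obtain ⟨C₂, hC₂⟩ := hν₂ (S'.image (memHom B₂))
      refine ⟨C₁ * C₂, fun m' N hm' hN' => ?_⟩
      obtain ⟨E, hE⟩ := Pool.Agent.W636.PG.exists_duals ℂ K n _ hy₀
      obtain ⟨ω, hli, hω⟩ := hN'
      obtain ⟨-, g1, g2, g⟩ := two_bound' inferInstance hn hy₀ hE hB₁ hB₂ hf hT hδ₁ hδ₂ (S := S')
        (m := m') (b := 1) (N₁ := C₁ * m' ^ a₁) (N₂ := C₂ * m' ^ a₂)
        (fun N' h => hC₁ m' N' hm' h) (fun N' h => hC₂ m' N' hm' h) hω hli
      calc N ≤ _ := g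
        _ ≤ (C₁ * m' ^ a₁) * (C₂ * m' ^ a₂) := Nat.mul_le_mul g1 g2
        _ = C₁ * C₂ * m' ^ (a₁ + a₂) := by ring

end Pool.Agent.Results.MP_fa3f7f_ag.ComplementaryFamilies
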