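import Pool.Agent.H891.TY.Flag

/-!
# Plurigenera, Kodaira dimension and numerical dimension are bounded by those of the members of
# several covering families of subvarieties

MP_fa3f7f_ag, Q1. Let `V` be a projective variety of dimension `n` with function field `K`, and
consider `r` covering families of subvarieties of `V` (members of the same family may be used several
times). Let `F j` be the general member of the family `j` through the general point `p` of `V`, and
`T j ⊆ T_p V` its tangent space. Suppose that there is a complete flag `U 1 ⊂ ... ⊂ U n = T_p V` such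
that for each `i` at least `q` of the `T j` satisfy `U i ⊆ U (i - 1) + T j`. Then

* `P_m(V) ^ q ≤ ∏ P_m(F j)` for all `m`, and more generally
  `h⁰(m (K_V + Δ) + b A) ^ q ≤ ∏ h⁰(F j, m (K + Δ) + b A)` for all `ℝ`-divisors `Δ` and all `A`;
* `q κ(V) ≤ ∑ κ(F j)` and `q ν(V) ≤ ∑ ν(F j)`, also for pairs `(V, Δ)`.

The simplest case: if the tangent spaces `T j` span `T_p V`, this holds with `q = 1`; e.g.
`ν(V) ≤ ∑ ν(F j)`. If `κ(V) ≥ h` and `∑ ν(F j) ≤ q h` then `κ(V) = ν(V) = h`; the varieties with
this property have good minimal models, outcome (a). E.g. this is so for all `V` with `κ(V) ≥ 0`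
which have covering families of subvarieties with `ν ≤ 0` whose tangent spaces span. The members
may have small dimension (at most three, where abundance is known), so that their numerical
dimensions are computable.

If `V` has `n` independent fibrations over curves, or fibrations given by the coordinates of a
generically finite map to a product, the `F j` can be taken to be fibres: Loomis-Whitney and Shearer
inequalities. If the `F j` are `r` general members of one covering family of `f`-dimensional
subvarieties whose tangent spaces are in such a position with `q = r f / n`, one obtains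
`P_m(V) ^ (1 / n) ≤ P_m(F) ^ (1 / f)` and `ν(V) / dim V ≤ ν(F) / dim F`.

A covering family of subvarieties of dimension `f`, with the parameter space `T` cut down to
dimension `n - f`, is given by the algebraic closure `B` of the function field of `T` in the algebraic
closure of `K` (the function field of the total space of the family is a finite extension of `K`
which contains the one of `T`); `B` is any algebraically closed field with `ℂ ⊆ B` of transcendence
degree `n - f` (`IsFamily`). `MemField B` is the field generated by `B` and `K`: the function field of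
the geometric generic member. `Tan B`: the derivations of the algebraic closure of `K` which vanish on
`B`, i.e. the tangent space of the member at the general (geometric generic) point of `V`.
`FlagCover n q B`: the flag condition.
`HasIndep k K n N P`: there are `N` linearly independent `ω` with `P`. `PairSec k K n δ S m b ω`:
`ω` is a rational `m`-canonical form which is a section of `m (K_V + Δ) + b A`, `Δ` the divisor with
the multiplicities `δ v` at the prime divisors `v` over `V`, and `A` the divisor generated by the
functions in `S` (for `δ = 0`, `S = {1}` these are the regular `m`-canonical forms).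
`IsRestrMem B δ δ'`: `δ'` is the restriction of `δ` (`δ' = 0` for `δ = 0`). `MemIndep`, `MemKod`,
`MemNum`: number of independent sections, `κ ≤ a` and `ν ≤ a` for the general member.
`PairKod k K n δ h`: `κ(K_V + Δ) ≥ h`. `PairNum k K n δ h`: `ν(K_V + Δ) ≤ h`, that is
`h⁰(m (K_V + Δ) + A) ≤ C m ^ h` for all `A`.

The proof: let `W` be the space of the coefficients of the sections. Consider the Taylor series of the
functions in `W` at the geometric generic point of `V`, and the space they span over the algebraic
closure `Ω` of `K`; it has the same dimension as `W` (the relations are differentiated). The values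
(order, and leading exponent of the initial form in the coordinates given by the flag) of the
elements of this space are `dim W` different vectors of `ℕ ^ n`. The initial forms of the elements of
the ring generated by `Ω` and the Taylor series of the elements of `B j` are killed by `T j`, so that
their values are zero at the places `i` with `U i ⊆ U (i - 1) + T j`. So the number of the
projections of the vectors to these coordinates is at most the dimension of `B j W` over `B j`, and
Shearer's inequality applies.
-/

set_option autoImplicit false

open FF Pool.Agent.W619.TW Pool.Agent.Y174 Pool.Agent.H891.TY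

namespace Pool.Agent.Results.MP_fa3f7f_ag.CoveringFamilies

/-- **Covering families.** Let `V` be a projective variety of dimension `n` with function field `K`,
and let `B j` (`j < r`) define covering families of subvarieties of `V` of dimensions `f j`, with the
general members `F j`. Let `Δ` be given by `δ` and its restrictions to the `F j` by `δ' j`.

(A) Suppose that for a complete flag in the tangent space of `V` at the general point each step is
covered by at least `q ≥ 1` of the tangent spaces of the `F j` (`FlagCover`). Then:

(1) `h⁰(m (K_V + Δ) + b A) ^ q ≤ ∏ h⁰(F j, m (K + Δ) + b A)` for all `A`, `m` and `b`.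

(2) If `κ(F j, K + Δ) ≤ a j` for all `j`, and `κ(K_V + Δ) ≥ h`, then `q h ≤ ∑ a j`.

(3) If `ν(F j, K + Δ) ≤ ν j` for all `j` then `h⁰(m (K_V + Δ) + A) ^ q ≤ C m ^ (∑ ν j)` for all `A`;
so `ν(K_V + Δ) ≤ h` if `∑ ν j ≤ q h`.

(B) If the tangent spaces of the `F j` span the tangent space of `V` at the general point, then the
assumption of (A) holds with `q = 1`. -/
theorem result {K : Type} [Field K] [Algebra ℂ K] [Algebra.EssFiniteType ℂ K] {n : ℕ}
    (hn : Algebra.trdeg ℂ K = n) {r : ℕ} (B : Fin r → IntermediateField ℂ (AlgebraicClosure K))
    (f : Fin r → ℕ) (hB : ∀ j, IsFamily (B j) n (f j)) :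
    (∀ q : ℕ, 1 ≤ q → FlagCover n q B →
      ∀ (δ : Place ℂ K → ℝ) (δ' : ∀ j, MemDiv (B j)), (∀ j, IsRestrMem (B j) δ (δ' j)) →
      (∀ (S : Finset K) (m b N : ℕ) (M : Fin r → ℕ),
        HasIndep ℂ K n N (PairSec ℂ K n δ S m b) →
        (∀ j N', MemIndep (B j) (f j) (δ' j) S m b N' → N' ≤ M j) → N ^ q ≤ ∏ j, M j) ∧
      (∀ a : Fin r → ℕ, (∀ j, MemKod (B j) (f j) (δ' j) (a j)) →
        ∀ h, PairKod ℂ K n δ h → q * h ≤ ∑ j, a j) ∧
      ∀ ν : Fin r → ℕ, (∀ j, MemNum (B j) (f j) (δ' j) (ν j)) →
        (∀ S : Finset K, ∃ C : ℕ, ∀ m N : ℕ, 1 ≤ m → HasIndep ℂ K n N (PairSec ℂ K n δ S m 1) →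
          N ^ q ≤ C * m ^ (∑ j, ν j)) ∧
        ∀ h, ∑ j, ν j ≤ q * h → PairNum ℂ K n δ h) ∧
    ((⨆ j, Tan (B j)) = ⊤ → FlagCover n 1 B) := by
  classical
  refine ⟨fun q hq hcov δ δ' hδ => ?_, flag_of_span hn B⟩
  obtain ⟨D, hD, hDJ⟩ := hcov
  choose hcl hf1 d hd hf using hB
  have h1 : ∀ (S : Finset K) (m b N : ℕ) (M : Fin r → ℕ),
      HasIndep ℂ K n N (PairSec ℂ K n δ S m b) →
      (∀ j N', MemIndep (B j) (f j) (δ' j) S m b N' → N' ≤ M j) → N ^ q ≤ ∏ j, M j :=
    fun S m b N M hN hM => cover inferInstance hn hD hq B hcl hd hf hf1 (flag_kills hDJ) hδ hN hM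
  have h3 : ∀ ν : Fin r → ℕ, (∀ j, MemNum (B j) (f j) (δ' j) (ν j)) →
      ∀ S : Finset K, ∃ C : ℕ, ∀ m N : ℕ, 1 ≤ m → HasIndep ℂ K n N (PairSec ℂ K n δ S m 1) →
        N ^ q ≤ C * m ^ (∑ j, ν j) := by
    intro ν hν S
    choose C hC using fun j => hν j (S.image (memHom (B j)))
    refine ⟨∏ j, C j, fun m N hm hN => ?_⟩
    have h4 := h1 S m 1 N (fun j => C j * m ^ ν j) hN fun j N' hN' => hC j m N' hm hN'
    rwa [Finset.prod_mul_distrib, Finset.prod_pow_eq_pow_sum] at h4
  refine ⟨h1, fun a ha h hk => ?_, fun ν hν => ⟨h3 ν hν, fun h hh S => ?_⟩⟩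
  · choose C hC using ha
    obtain ⟨m, hm, hg⟩ := Pool.Agent.H891.KS.kod_growth hk
    refine Pool.Agent.H891.KS.exp_le (C := ∏ j, C j) (m := m) fun i hi => ?_
    have h4 := h1 {1} (i * m) 0 (i ^ h) (fun j => C j * (i * m) ^ a j) (hg i) fun j N' hN' =>
      hC j (i * m) N' (Nat.mul_pos hi hm) hN'
    rwa [Finset.prod_mul_distrib, Finset.prod_pow_eq_pow_sum, ← pow_mul, mul_comm h q] at h4
  · obtain ⟨C, hC⟩ := h3 ν hν S
    exact ⟨C + 1, fun m N hm hN => Pool.Agent.H891.KS.pow_bound hm hq hh (hC m N hm hN)⟩

end Pool.Agent.Results.MP_fa3f7f_ag.CoveringFamilies
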