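import Pool.Agent.H891.RH.Kod

/-!
# Riemann-Hurwitz inequality for Brascamp-Lieb systems of multivalued maps, and a criterion for
# `κ = ν`

MP_fa3f7f_ag, Q1. Let `V` be a projective variety of dimension `n` with function field `K`. A
multivalued map of `V` is a rational map `φ : V' ⇢ Y` of a Galois covering `V' → V`, with function
field `L ⊇ K`, onto a variety `Y`, i.e. a subfield `ℂ(Y)` of `L`. Its fibres `F` (their images in
`V`) are a covering family of subvarieties of `V`; there may be several members through the general
point of `V`, and conversely each covering family of subvarieties with a parameter space of dimension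
`n - dim F` arises in this way. Let `φ j : V ⇢ Y j` (`j < r`) be multivalued maps, with fibres `F j` of
dimension `f j ≥ 1`, let `T j` be the tangent spaces of the `F j` at the general point of `V`, and let
`q j = c j / d > 0` be rational weights such that

`n - dim U ≤ ∑ q j (f j - dim (U ∩ T j))` for all distributions `U ⊆ T_V` on `V`,
with equality for `U = 0`: `n = ∑ q j f j`

(this is the condition of Bennett, Carbery, Christ and Tao for the scale-invariant Brascamp-Lieb
inequalities, but only for the subspaces `U` of the tangent space at the general point which are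
rational over `K`). Put `p j = c j / d'`, `d' = ∑ c j - d`; then `n = ∑ p j dim (Y j)` and
`dim U ≤ ∑ p j dim (dφ j (U))`. Then:

(1) `K_V + Δ ≥ ∑ p j φ j^* (K_{Y j} + Δ j)` if the ramification bound `RamBound` is satisfied. Here
the pull-back by a multivalued map is the average over its conjugates and branches (the norm from `L`
to `K`). The inequality is stated for sections: `c j (K_{Y j} + Δ j)`-sections `η j` of the degrees
`T D c j` give the section of `T D d' g ^ 2 (K_V + Δ)` with the value `ρ ^ T ∏ N (η j) ^ g`,
`g = [L : K]`. For `L = K` (the maps are single-valued) and `Δ = 0`, `Δ j = 0` the bound is satisfied;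
for `L = K` and `Δ = 0` it is satisfied as soon as `Δ j` is at most the orbifold base divisor of
Campana of `φ j`. For multivalued maps with `Δ = 0` the ramification of the covering `V' → V` has to
be compensated by the one of the `φ j`.

(2) If `κ(Y j, K + Δ j) ≥ 0` for all `j` then `κ(V, K_V + Δ) ≥ a`, where `a` is the dimension of the
image of `V'` under all the conjugates of the compositions of the `φ j` with the Iitaka fibrations of
the `(Y j, Δ j)`: the transcendence degree of the field generated by the conjugates over `K` of
the ratios of pluricanonical forms of the `(Y j, Δ j)`.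

(3) If moreover `∑ q j ν(F j, K + Δ) ≤ a` then `κ(V, K_V + Δ) = ν(V, K_V + Δ) = a`.

So for example: if the fibres have `ν(F j) = 0` and the bases have `κ(Y j) ≥ 0` then `κ = ν = 0`; for a
generically finite multivalued map to a product `Y 1 × Y 2` (`f 1 + f 2 = n`, `q = (1, 1)`) the
condition is `ν(F 1) + ν(F 2) ≤ a`; the varieties with `κ = ν` have good minimal models, outcome (a).

Conventions. The fibres of `φ j` are given by the algebraic closure `B j` of `ℂ(Y j)` in the algebraic
closure of `K` (`IsFibres`; `IsFamily`: algebraically closed of transcendence degree `n - f j`,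
`f j ≥ 1`). `Tan (B j)`: the derivations of the algebraic closure of `K` which vanish on `B j`.
`IsDistribution U`: `U` is generated by derivations which map `K` into itself. `BLDist`: the
condition above. `PairSec k M n δ {1} m 0 ω`: the rational `m`-canonical form `ω` is a section of
`m (K + Δ)`, `Δ` the divisor with the multiplicities `δ v` at the prime divisors over the variety with
function field `M`. `PairKod k M n δ h`: `κ(K + Δ) ≥ h`. `PairNum k M n δ h`: `ν(K + Δ) ≤ h`, that is
`h⁰(m (K + Δ) + A) ≤ C m ^ h` for all `A`. `IsRestrMem B δ δ'`: `δ'` is the restriction of `δ` to the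
general member (`δ' = 0` for `δ = 0`), `MemNum B f δ' ν`: `ν(F, K + Δ) ≤ ν` for the geometric generic
member. `IsSecRatio`: ratio of two sections of the same positive degree.

The proof of (1). The cotangent space `Ω_V ⊗ E` of the generic point is mapped onto by the sum of the
pull-backs of the `Ω_{Y j} ⊗ E_j` by all values of the `φ j` for suitable constant matrices, `E`,
`E_j` vector spaces over `ℂ` of dimensions with `dim E · n = ∑ dim E_j · dim (Y j)` (all conjugates
occur with the same multiplicity): this is the condition (first for all subspaces over the algebraic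
closure of `K`, which reduces to the distributions by the Galois action, then an existence theorem for
matrices without solutions of a rank defect). The determinant of this map is a semi-invariant of the
system of subspaces; it is a rational function, and along each prime divisor over `V` the forms on
`Y j` and on `V` are compared by means of logarithmic forms. The product over the Galois group
descends to `K`. For (2): if a derivation of `L` vanishes on all norms `N (c - x)`, `c ∈ ℂ`, then
it vanishes on all coefficients of the characteristic polynomial of `x`, so the ratios are algebraic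
over the field generated by norms of ratios. (3) also uses the Brascamp-Lieb inequality for the
sections (`BrascampLieb`), for the upper bound of `ν`.
-/

set_option autoImplicit false

open FF Pool.Agent.W619.TW Pool.Agent.Y174 Pool.Agent.H891.TY Pool.Agent.H891.BL
  Pool.Agent.H891.RH

namespace Pool.Agent.Results.MP_fa3f7f_ag.RiemannHurwitz

/-- **Riemann-Hurwitz inequality for Brascamp-Lieb systems of multivalued maps.** Let `V` be a
projective variety of dimension `n` with function field `K`, `L` a finite Galois extension of `K`, and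
let `Y j ⊆ L` be function fields of varieties of dimension `y j`; let `B j` be the algebraic closure
of `Y j`, i.e. the family of the fibres of the multivalued map `V ⇢ Y j`, of dimension `f j = n - y j`.
Let the weights `c j / d`, `c j ≥ 1`, `∑ c j f j = d n`, satisfy the Brascamp-Lieb condition for all
distributions on `V` (`BLDist`), and let `d' = ∑ c j - d ≥ 1`. Then

(1) There is a `D ≥ 1` such that for all frames `E` of `V` and `F j` of `Y j` (dual to coordinates)
there is `ρ ≠ 0` such that for all divisors `Δ`, `Δ j` with `RamBound`, all `T` and all sections `η j`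
of `T D c j (K_{Y j} + Δ j)` there is a section of `T D d' g ^ 2 (K_V + Δ)`, `g = [L : K]`, with the
value `ρ ^ T ∏ N (η j (F j)) ^ g` on `E`.

For all divisors `Δ`, `Δ j` with `RamBound` and `κ(Y j, K + Δ j) ≥ 0`, if `a` of the
conjugates of the ratios of sections on the `(Y j, Δ j)` are algebraically independent, then

(2) `κ(K_V + Δ) ≥ a`.

(3) If `ν(F j, K + Δ) ≤ ν j` for all `j` and `∑ c j ν j ≤ d a` then also `ν(K_V + Δ) ≤ a`, so
`κ(K_V + Δ) = ν(K_V + Δ) = a`. -/
theorem result {K : Type} [Field K] [Algebra ℂ K] [Algebra.EssFiniteType ℂ K] {n : ℕ}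
    (hn : Algebra.trdeg ℂ K = n) (L : IntermediateField K (AlgebraicClosure K))
    [FiniteDimensional K L] [IsGalois K L] {r : ℕ} (Y : Fin r → IntermediateField ℂ L)
    [∀ j, Algebra.EssFiniteType ℂ (Y j)] (B : Fin r → IntermediateField ℂ (AlgebraicClosure K))
    (y f : Fin r → ℕ) (hY : ∀ j, IsFibres L (Y j) (B j) n (y j) (f j)) (c : Fin r → ℕ)
    (hc : ∀ j, 1 ≤ c j) (d d' : ℕ) (hd : 1 ≤ d) (hd' : 1 ≤ d') (hdd : d + d' = ∑ j, c j)
    (hs : ∑ j, c j * f j = d * n) (hBL : BLDist n B f c d) :
    (∃ D : ℕ, 0 < D ∧ ∀ (y₀ : Fin n → K) (E : Fin n → Derivation ℂ K K)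
      (t : ∀ j, Fin (y j) → Y j) (F : ∀ j, Fin (y j) → Derivation ℂ (Y j) (Y j)),
      IsTranscendenceBasis ℂ y₀ → (∀ i j, E i (y₀ j) = if i = j then 1 else 0) →
      (∀ j, IsTranscendenceBasis ℂ (t j)) →
      (∀ j l l', F j l (t j l') = if l = l' then 1 else 0) → ∃ ρ : K, ρ ≠ 0 ∧
      ∀ (δ : Place ℂ K → ℝ) (δY : ∀ j, Place ℂ (Y j) → ℝ), RamBound n L δ Y δY c d' →
        ∀ (T : ℕ) (η : ∀ j, (Fin (y j) → Derivation ℂ (Y j) (Y j)) → Y j),
        (∀ j, PairSec ℂ (Y j) (y j) (δY j) {1} (T * (D * c j)) 0 (η j)) →
        ∃ ω, PairSec ℂ K n δ {1} (T * (D * d' * Nat.card (L ≃ₐ[K] L) ^ 2)) 0 ω ∧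
          ω E = ρ ^ T * ∏ j, Algebra.norm K (η j (F j) : L) ^ Nat.card (L ≃ₐ[K] L)) ∧
    ∀ (δ : Place ℂ K → ℝ) (δY : ∀ j, Place ℂ (Y j) → ℝ), RamBound n L δ Y δY c d' →
      (∀ j, PairKod ℂ (Y j) (y j) (δY j) 0) → ∀ (a : ℕ) (z : Fin a → L),
      AlgebraicIndependent ℂ z →
      (∀ i, ∃ (j : Fin r) (x : Y j) (σ : L ≃ₐ[K] L),
        IsSecRatio (k := ℂ) (y j) (δY j) x ∧ z i = σ x) →
      PairKod ℂ K n δ a ∧
      ∀ δ' : ∀ j, MemDiv (B j), (∀ j, IsRestrMem (B j) δ (δ' j)) → ∀ ν : Fin r → ℕ,
        (∀ j, MemNum (B j) (f j) (δ' j) (ν j)) → ∑ j, c j * ν j ≤ d * a →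
        PairNum ℂ K n δ a := by
  classical
  refine ⟨rh inferInstance hn hY hd' hdd hBL hs, fun δ δY hram hkod a z hz hzR =>
    ⟨rh_kod inferInstance hn hY hd' hdd hBL hs hc hram hkod hz hzR, fun δ' hδ ν hν hle S => ?_⟩⟩
  obtain ⟨D, hD, h1⟩ := bl_dist inferInstance hn hd (fun j => (hY j).fam) hBL
  choose C hC using fun j => mem_num (hν j) S (Nat.mul_pos hd hD)
  refine ⟨∏ j, C j ^ c j + 1, fun m N hm hN => ?_⟩
  refine Pool.Agent.H891.KS.pow_bound hm hd hle ?_
  have h4 := h1 δ δ' hδ S m 1 N (fun j => C j * m ^ ν j) hN fun j N' hN' => hC j m N' hm hN'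
  have h5 : ∏ j, (C j * m ^ ν j) ^ (c j * D) =
      ((∏ j, C j ^ c j) * m ^ (∑ j, c j * ν j)) ^ D := by
    rw [← Finset.prod_pow_eq_pow_sum, ← Finset.prod_mul_distrib, ← Finset.prod_pow]
    refine Finset.prod_congr rfl fun j _ => ?_
    rw [mul_pow, mul_pow, ← pow_mul, ← pow_mul, ← pow_mul]
    congr 2
    ring
  rw [h5, pow_mul] at h4
  exact (Nat.pow_le_pow_iff_left hD.ne').1 h4

end Pool.Agent.Results.MP_fa3f7f_ag.RiemannHurwitz
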